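import Pool.Agent.W307.RS.Stm
import Pool.Agent.W29.RT.CNT2

/-!
# Project RS, part CNT2S: coprime pairs in a short square with given small prime factors

Adapted from `Pool.Agent.W29.RT.CNT2`.
-/

set_option autoImplicit false
set_option linter.unusedSectionVars false

namespace Pool.Agent.W839.RS

open Finset Pool.Agent.W262.RK Pool.Agent.W307.RT Pool.Agent.W307.RS
open Pool.Agent.W372.RK2 (sq_pow_dvd mj mj_primes prod_gw)
open Pool.Agent.W29.RT (dvd_S1 dvd_S2 G2 c0 mj_eq cong prod_pr)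

variable {J : Type} [Fintype J] [DecidableEq J]

variable {z y Y : ℕ} {s v u : J → ℕ} {f f' : J → ℤ} {α β : J → ℤ}

lemma un_ofZ (hB : Bg α β z) {t w : ℤ} (htw : IsCoprime t w) {p : ℕ} (hp : p.Prime) (hz : z < p)
    {j : J} (hj : (p : ℤ) ∣ fv α β t w j) : ¬ (p : ℤ) ∣ w := by
  intro hw
  unfold fv at hj
  have h1 : (p : ℤ) ∣ α j * t := (dvd_add_left (hw.mul_left _)).1 hj
  have hpI : Prime (p : ℤ) := Nat.prime_iff_prime_int.1 hp
  rcases hpI.dvd_or_dvd h1 with h | h
  · exact (hB.2 p hp hz).1 j h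
  · exact hpI.not_isUnit (htw.isUnit_of_dvd' h hw)

lemma one_le_mul_gw (hc : Fintype.card J ≤ z) {d : ℕ} (hd : d ∈ (PP z y).divisors) :
    1 ≤ (d : ℝ) * gw 1 (Fintype.card J) d := by
  rw [← prod_gw hd]
  have h1 : ∀ p ∈ d.primeFactors, (1 : ℝ) ≤ (p : ℝ) / ((p : ℝ) - Fintype.card J) := by
    intro p hp
    have hpz : z < p := (dv_prime hd (Nat.prime_of_mem_primeFactors hp)
      (Nat.dvd_of_mem_primeFactors hp)).1
    have h1 : ((Fintype.card J : ℕ) : ℝ) < p := by exact_mod_cast lt_of_le_of_lt hc hpz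
    rw [le_div_iff₀ (by linarith)]
    have : (0 : ℝ) ≤ ((Fintype.card J : ℕ) : ℝ) := Nat.cast_nonneg _
    linarith
  calc (1 : ℝ) = ∏ p ∈ d.primeFactors, (1 : ℝ) := by simp
    _ ≤ _ := prod_le_prod (fun _ _ => zero_le_one) h1

/-- CNT2S -/
theorem cnt2s_of (h : SVR2) (h2 : AVHS) : CNT2S := by
  intro J _ _ α β z B hB
  obtain ⟨C, K, y0, hC, hK, hSV⟩ := h J z hB.1
  obtain ⟨CA, hCA, hav⟩ := h2 (Fintype.card J) z B hB.1
  refine ⟨C * CA + 2 * (Fintype.card J).factorial, K, y0, by positivity, hK, ?_⟩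
  intro N1 N2 X y Y hN1 hN2 hy0 hzy hX s hs v hv u hu hsvu
  have hs' := (Pool.Agent.W372.RK2.mem_Tup'.1 hs).1
  have hv' := (Pool.Agent.W372.RK2.mem_Tup'.1 hv).1
  have hu' := (Pool.Agent.W372.RK2.mem_Tup'.1 hu).1
  have hz : 2 ≤ z := by have := hB.1; omega
  have hc : Fintype.card J ≤ z := by have := hB.1; omega
  have hy1 : 1 ≤ y := by omega
  have hyX : y ≤ X := (Nat.le_self_pow (by omega) y).trans hX
  have hX1 : 1 ≤ X := hy1.trans hyX
  have hlogy : 0 < Real.log y := Real.log_pos (by exact_mod_cast (by omega : 1 < y))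
  have hlog0 : 0 < (Real.log y) ^ (Fintype.card J) := pow_pos hlogy _
  have hlog : 0 ≤ (Real.log y) ^ (Fintype.card J) := hlog0.le
  have hgs : ∀ j, 0 ≤ gw 1 (Fintype.card J) (s j) := fun j => gw_nonneg zero_le_one hc (hs' j)
  have hgv : ∀ j, 0 ≤ gw 1 (Fintype.card J) (v j) := fun j => gw_nonneg zero_le_one hc (hv' j)
  have hP1 : 0 ≤ ∏ j, gw 1 (Fintype.card J) (s j) := prod_nonneg fun j _ => hgs j
  have hP2 : 0 ≤ ∏ j, gw 1 (Fintype.card J) (v j) / v j :=
    prod_nonneg fun j _ => div_nonneg (hgv j) (Nat.cast_nonneg _)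
  have hP3 : 0 ≤ ∏ j, 1 / (u j : ℝ) := prod_nonneg fun j _ => by positivity
  set T := (Icc 1 X ×ˢ Icc 1 X).filter (fun t : ℕ × ℕ =>
      IsCoprime (N1 + (t.1 : ℤ)) (N2 + (t.2 : ℤ)) ∧
      S1 z y (fv α β (N1 + (t.1 : ℤ)) (N2 + (t.2 : ℤ))) = s ∧
      S2 z y (fv α β (N1 + (t.1 : ℤ)) (N2 + (t.2 : ℤ))) = v ∧
      ∀ j, (u j : ℤ) ∣ fv α β (N1 + (t.1 : ℤ)) (N2 + (t.2 : ℤ)) j) with hT
  have hun : ∀ t w : ℤ, IsCoprime t w → ∀ p : ℕ, p.Prime → z < p → ∀ j l,
      (p : ℤ) ∣ fv α β t w j → (p : ℤ) ∣ fv α β t w l → j = l := by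
    intro t w htw p hp hzp j l hj hl
    by_contra hne
    have hw := un_ofZ hB htw hp hzp hj
    have h1 : Res α β j l * w = α j * fv α β t w l - α l * fv α β t w j := by
      unfold Res fv
      ring
    have h3 : (p : ℤ) ∣ Res α β j l * w := by
      rw [h1]
      exact dvd_sub (hl.mul_left _) (hj.mul_left _)
    have hpI : Prime (p : ℤ) := Nat.prime_iff_prime_int.1 hp
    rcases hpI.dvd_or_dvd h3 with h | h
    · exact (hB.2 p hp hzp).2 j l hne h
    · exact hw h
  have hgood : ∀ t ∈ T, G2 z y s v u (fv α β (N1 + (t.1 : ℤ)) (N2 + (t.2 : ℤ))) := by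
    intro t ht
    rw [hT, mem_filter] at ht
    exact ⟨ht.2.2.1, ht.2.2.2.1, ht.2.2.2.2, hun _ _ ht.2.1⟩
  rcases T.eq_empty_or_nonempty with hTe | ⟨t0, ht0⟩
  · rw [hTe, card_empty, Nat.cast_zero]
    apply div_nonneg _ hlog
    positivity
  set m := ∏ j, mj c0 s v u j with hm
  have hmj1 : ∀ j, 1 ≤ mj c0 s v u j := by
    intro j
    rw [mj_eq]
    have h1 := dv_pos (hs' j)
    have h2 := dv_pos (hv' j)
    have h3 := dv_pos (hu' j)
    exact Nat.succ_le_of_lt (by positivity)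
  have hm1 : 1 ≤ m := Nat.succ_le_of_lt (prod_pos fun j _ => hmj1 j)
  have hm4 : m ^ 4 ≤ X := by
    refine le_trans ?_ hsvu
    have h1 : m ≤ (∏ j, s j * v j * u j) ^ 2 := by
      rw [← prod_pow]
      apply prod_le_prod'
      intro j _
      rw [mj_eq]
      have h1 := dv_pos (hs' j)
      have h3 := dv_pos (hu' j)
      calc s j * v j ^ 2 * u j ≤ (s j * s j) * v j ^ 2 * (u j * u j) := by
            apply Nat.mul_le_mul
            · apply Nat.mul_le_mul_right
              nlinarith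
            · nlinarith
        _ = (s j * v j * u j) ^ 2 := by ring
    calc m ^ 4 ≤ ((∏ j, s j * v j * u j) ^ 2) ^ 4 := Nat.pow_le_pow_left h1 4
      _ = (∏ j, s j * v j * u j) ^ 8 := by rw [← pow_mul]
  have hsq := hgood t0 ht0
  -- factors
  set g : ℕ → ℝ := fun p => (p : ℝ) / ((p : ℝ) - Fintype.card J) with hg
  have hg1 : ∀ p, z < p → 1 ≤ g p := by
    intro p hp
    have h1 : ((Fintype.card J : ℕ) : ℝ) < p := by exact_mod_cast lt_of_le_of_lt hc hp
    rw [hg]
    simp only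
    rw [le_div_iff₀ (by linarith)]
    have : (0 : ℝ) ≤ ((Fintype.card J : ℕ) : ℝ) := Nat.cast_nonneg _
    linarith
  set Gm : ℝ := ∏ p ∈ m.primeFactors.filter (fun p => p ∈ PS z y), g p with hGm
  have hGm0 : 0 ≤ Gm := prod_nonneg fun p hp =>
    zero_le_one.trans (hg1 p (mem_PS.1 (mem_filter.1 hp).2).1.1)
  have hmul : ∀ w : ℕ, w ≠ 0 → ∏ p ∈ (m * w).primeFactors.filter (fun p => p ∈ PS z y), g p ≤
      Gm * ∏ p ∈ w.primeFactors.filter (fun p => z < p), g p := by
    intro w hw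
    have e1 : (m * w).primeFactors.filter (fun p => p ∈ PS z y) =
        m.primeFactors.filter (fun p => p ∈ PS z y) ∪
          (w.primeFactors.filter (fun p => p ∈ PS z y) \
            m.primeFactors.filter (fun p => p ∈ PS z y)) := by
      rw [union_sdiff_self_eq_union, Nat.primeFactors_mul (by omega) hw, filter_union]
    rw [e1, prod_union disjoint_sdiff]
    apply mul_le_mul_of_nonneg_left _ hGm0
    have e2 : (w.primeFactors.filter (fun p => p ∈ PS z y) \
        m.primeFactors.filter (fun p => p ∈ PS z y)) ⊆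
        w.primeFactors.filter (fun p => z < p) := by
      intro p hp
      rw [mem_sdiff, mem_filter] at hp
      rw [mem_filter]
      exact ⟨hp.1.1, (mem_PS.1 hp.1.2).1.1⟩
    rw [← prod_sdiff e2]
    apply le_mul_of_one_le_left
    · exact prod_nonneg fun p hp => zero_le_one.trans (hg1 p (mem_filter.1 (e2 hp)).2)
    · have h1 : ∀ p ∈ w.primeFactors.filter (fun p => z < p) \
          (w.primeFactors.filter (fun p => p ∈ PS z y) \
            m.primeFactors.filter (fun p => p ∈ PS z y)), (1 : ℝ) ≤ g p := by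
        intro p hp
        exact hg1 p (mem_filter.1 (mem_sdiff.1 hp).1).2
      calc (1 : ℝ) = ∏ p ∈ w.primeFactors.filter (fun p => z < p) \
          (w.primeFactors.filter (fun p => p ∈ PS z y) \
            m.primeFactors.filter (fun p => p ∈ PS z y)), (1 : ℝ) := by simp
        _ ≤ _ := prod_le_prod (fun _ _ => zero_le_one) h1
  set W : ℕ → ℕ := fun w => (N2 + (w : ℤ)).natAbs with hW
  have hGw0 : ∀ w : ℕ, 0 ≤ ∏ p ∈ (W w).primeFactors.filter (fun p => z < p), g p :=
    fun w => prod_nonneg fun p hp => zero_le_one.trans (hg1 p (mem_filter.1 hp).2)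
  -- bound for a fixed second variable
  have hfib : ∀ w ∈ Icc 1 X, N2 + (w : ℤ) ≠ 0 →
      ((T.filter (fun t : ℕ × ℕ => t.2 = w)).card : ℝ) ≤
      C * (X / m) * (Gm * ∏ p ∈ (W w).primeFactors.filter (fun p => z < p), g p) /
        (Real.log y) ^ (Fintype.card J) := by
    intro w hw hw0'
    rw [mem_Icc] at hw
    have hw0 : W w ≠ 0 := Int.natAbs_ne_zero.2 hw0'
    set β' : J → ℤ := fun j => α j * N1 + β j * (N2 + (w : ℤ)) with hβ'
    have hcond : ∀ p ∈ PS z y, ¬ p ∣ m * W w → (∀ j, ¬ (p : ℤ) ∣ α j) ∧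
        ∀ j l, j ≠ l → ¬ (p : ℤ) ∣ Res α β' j l := by
      intro p hp hpm
      have hpp := (mem_PS.1 hp).2
      have hzp := (mem_PS.1 hp).1.1
      refine ⟨(hB.2 p hpp hzp).1, fun j l hjl hd => ?_⟩
      have h1 : Res α β' j l = Res α β j l * (N2 + (w : ℤ)) := by
        unfold Res
        rw [hβ']
        ring
      rw [h1] at hd
      have hpI : Prime (p : ℤ) := Nat.prime_iff_prime_int.1 hpp
      rcases hpI.dvd_or_dvd hd with h | h
      · exact (hB.2 p hpp hzp).2 j l hjl h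
      · exact hpm ((Int.natCast_dvd.1 h).mul_left _)
    have hbd : ∀ r : ℕ, (((Icc 1 X).filter (fun t : ℕ => t ≡ r [MOD m] ∧
        ∀ p ∈ PS z y, ¬ p ∣ m * W w →
        ∀ j, ¬ (p : ℤ) ∣ ff α β' t j)).card : ℝ) ≤
        C * (X / m) * (Gm * ∏ p ∈ (W w).primeFactors.filter (fun p => z < p), g p) /
          (Real.log y) ^ (Fintype.card J) := by
      intro r
      refine (hSV X y hy0 hzy hX α β' m (m * W w) r hm1
        (dvd_mul_right _ _) (mul_ne_zero (by omega) hw0) hm4 hcond).trans ?_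
      apply div_le_div_of_nonneg_right _ hlog
      apply mul_le_mul_of_nonneg_left (hmul (W w) hw0)
      positivity
    rcases (T.filter (fun t : ℕ × ℕ => t.2 = w)).eq_empty_or_nonempty with he | ⟨r, hr⟩
    · rw [he, card_empty, Nat.cast_zero]
      exact le_trans (Nat.cast_nonneg _) (hbd 0)
    · refine le_trans ?_ (hbd r.1)
      rw [Nat.cast_le]
      apply card_le_card_of_injOn (fun t : ℕ × ℕ => t.1)
      · intro t ht
        have ht' : t ∈ T.filter (fun t : ℕ × ℕ => t.2 = w) := ht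
        rw [mem_filter] at ht' hr
        have g1 := hgood t ht'.1
        have g2 := hgood r hr.1
        have htX : t.1 ∈ Icc 1 X := (mem_product.1 (mem_filter.1 ht'.1).1).1
        simp only [coe_filter, Set.mem_ofPred_eq]
        rw [ht'.2] at g1
        rw [hr.2] at g2
        refine ⟨htX, ?_, ?_⟩
        · have h1 := cong (α := α) (fun p hp hz => (hB.2 p hp hz).1) hzy hs hv hu g1 g2
            (t := (t.1 : ℤ)) (t' := (r.1 : ℤ)) (fun j => by unfold fv; ring)
          rw [← hm] at h1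
          exact ((Nat.modEq_iff_dvd.2 h1)).symm
        · intro p hpP hpm j hpf
          have hp := (mem_PS.1 hpP).2
          apply hpm
          apply Dvd.dvd.mul_right
          rw [hm]
          refine Dvd.dvd.trans ?_ (dvd_prod_of_mem _ (mem_univ j))
          rw [mj_eq]
          have hff : ff α β' (t.1 : ℤ) j = fv α β (N1 + (t.1 : ℤ)) (N2 + (w : ℤ)) j := by
            unfold ff fv
            rw [hβ']
            ring
          rw [hff] at hpf
          by_cases h2 : (p : ℤ) ^ 2 ∣ fv α β (N1 + (t.1 : ℤ)) (N2 + (w : ℤ)) j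
          · have h3 : p ∣ v j := by
              rw [← g1.hv]
              exact (dvd_S2 hp).2 ⟨hpP, h2⟩
            exact (((h3.pow two_ne_zero).mul_left _).mul_right _)
          · have h3 : p ∣ s j := by
              rw [← g1.hs]
              exact (dvd_S1 hp).2 ⟨hpP, hpf, h2⟩
            exact ((h3.mul_right _).mul_right _)
      · intro a ha b hb hab
        have ha' : a ∈ T.filter (fun t : ℕ × ℕ => t.2 = w) := ha
        have hb' : b ∈ T.filter (fun t : ℕ × ℕ => t.2 = w) := hb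
        rw [mem_filter] at ha' hb'
        exact Prod.ext hab (ha'.2.trans hb'.2.symm)
  -- the pairs with second coordinate zero
  have hzero : (T.filter (fun t : ℕ × ℕ => N2 + (t.2 : ℤ) = 0)).card ≤ 2 := by
    have hsub : (T.filter (fun t : ℕ × ℕ => N2 + (t.2 : ℤ) = 0)) ⊆
        ({((1 - N1).toNat, (-N2).toNat), ((-1 - N1).toNat, (-N2).toNat)} : Finset (ℕ × ℕ)) := by
      intro t ht
      rw [mem_filter] at ht
      have hcop := (mem_filter.1 ht.1).2.1
      rw [ht.2, isCoprime_zero_right, Int.isUnit_iff] at hcop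
      rw [mem_insert, mem_singleton]
      have ht2 : t.2 = (-N2).toNat := by omega
      rcases hcop with h | h
      · left
        exact Prod.ext (by simp only; omega) ht2
      · right
        exact Prod.ext (by simp only; omega) ht2
    exact (card_le_card hsub).trans card_le_two
  have hsplit : T.card = (T.filter (fun t : ℕ × ℕ => N2 + (t.2 : ℤ) = 0)).card +
      (T.filter (fun t : ℕ × ℕ => ¬ N2 + (t.2 : ℤ) = 0)).card :=
    (card_filter_add_card_filter_not _).symm
  have hcard : ((T.filter (fun t : ℕ × ℕ => ¬ N2 + (t.2 : ℤ) = 0)).card : ℝ) ≤ ∑ w ∈ Icc 1 X,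
      C * (X / m) * (Gm * ∏ p ∈ (W w).primeFactors.filter (fun p => z < p), g p) /
        (Real.log y) ^ (Fintype.card J) := by
    rw [card_eq_sum_card_fiberwise (f := fun t : ℕ × ℕ => t.2) (t := Icc 1 X)
      (fun t ht => (mem_product.1 (mem_filter.1 (mem_filter.1 ht).1).1).2)]
    rw [Nat.cast_sum]
    refine sum_le_sum fun w hw => ?_
    by_cases hw0 : N2 + (w : ℤ) = 0
    · have he : ((T.filter (fun t : ℕ × ℕ => ¬ N2 + (t.2 : ℤ) = 0)).filter
          (fun t : ℕ × ℕ => t.2 = w)) = ∅ := by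
        apply filter_eq_empty_iff.2
        intro t ht htw
        rw [mem_filter, htw] at ht
        exact ht.2 hw0
      rw [he, card_empty, Nat.cast_zero]
      have := hGw0 w
      positivity
    · refine le_trans ?_ (hfib w hw hw0)
      rw [Nat.cast_le]
      apply card_le_card
      intro t ht
      rw [mem_filter, mem_filter] at ht
      exact mem_filter.2 ⟨ht.1.1, ht.2⟩
  have hsum : ∑ w ∈ Icc 1 X,
      C * (X / m) * (Gm * ∏ p ∈ (W w).primeFactors.filter (fun p => z < p), g p) /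
        (Real.log y) ^ (Fintype.card J) ≤
      C * (X / m) * (Gm * (CA * X)) / (Real.log y) ^ (Fintype.card J) := by
    rw [← sum_div, ← mul_sum, ← mul_sum]
    apply div_le_div_of_nonneg_right _ hlog
    apply mul_le_mul_of_nonneg_left _ (by positivity)
    exact mul_le_mul_of_nonneg_left (hav N2 X hX1 hN2) hGm0
  have hGmeq : Gm = ∏ j, ((s j * gw 1 (Fintype.card J) (s j)) *
      (v j * gw 1 (Fintype.card J) (v j))) := prod_pr hs hv hu hsq
  have hterm : ∀ j, ((s j *
      gw 1 (Fintype.card J) (s j)) * (v j * gw 1 (Fintype.card J) (v j))) /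
      ((mj c0 s v u j : ℕ) : ℝ) = gw 1 (Fintype.card J) (s j) *
      (gw 1 (Fintype.card J) (v j) / v j) * (1 / (u j : ℝ)) := by
    intro j
    have h1 : (s j : ℝ) ≠ 0 := Nat.cast_ne_zero.2 (dv_ne_zero (hs' j))
    have h2 : (v j : ℝ) ≠ 0 := Nat.cast_ne_zero.2 (dv_ne_zero (hv' j))
    have h3 : (u j : ℝ) ≠ 0 := Nat.cast_ne_zero.2 (dv_ne_zero (hu' j))
    rw [mj_eq]
    rw [Nat.cast_mul, Nat.cast_mul, Nat.cast_pow]
    field_simp
  have hprod : (∏ j, ((s j * gw 1 (Fintype.card J) (s j)) *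
      (v j * gw 1 (Fintype.card J) (v j)))) /
      (∏ j, ((mj c0 s v u j : ℕ) : ℝ)) = (∏ j, gw 1 (Fintype.card J) (s j)) *
        (∏ j, gw 1 (Fintype.card J) (v j) / v j) * (∏ j, 1 / (u j : ℝ)) := by
    rw [← prod_div_distrib, ← prod_mul_distrib, ← prod_mul_distrib]
    exact prod_congr rfl fun j _ => hterm j
  -- the right side
  set R : ℝ := (∏ j, gw 1 (Fintype.card J) (s j)) *
        (∏ j, gw 1 (Fintype.card J) (v j) / v j) * (∏ j, 1 / (u j : ℝ)) with hR
  have hm0 : (0 : ℝ) < m := by exact_mod_cast hm1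
  have hRm : Gm / m = R := by
    rw [← hprod, hGmeq, hm, Nat.cast_prod]
  have hGm1 : 1 ≤ Gm := by
    rw [hGm]
    calc (1 : ℝ) = ∏ p ∈ m.primeFactors.filter (fun p => p ∈ PS z y), (1 : ℝ) := by simp
      _ ≤ _ := prod_le_prod (fun _ _ => zero_le_one)
        (fun p hp => hg1 p (mem_PS.1 (mem_filter.1 hp).2).1.1)
  have hXR : (0 : ℝ) < X := by exact_mod_cast hX1
  have hmX : (m : ℝ) ≤ X := by
    have : m ≤ X := (Nat.le_self_pow (by norm_num) m).trans hm4
    exact_mod_cast this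
  have hlogX : (Real.log y) ^ (Fintype.card J) ≤ (Fintype.card J).factorial * X := by
    have h1 := Real.pow_div_factorial_le_exp (Real.log y) hlogy.le (Fintype.card J)
    rw [Real.exp_log (by exact_mod_cast (by omega : 0 < y)), div_le_iff₀ (by positivity)] at h1
    have h2 : (y : ℝ) ≤ X := by exact_mod_cast hyX
    have h3 : (0 : ℝ) ≤ ((Fintype.card J).factorial : ℝ) := by positivity
    nlinarith
  have htwo : (2 : ℝ) ≤ 2 * (Fintype.card J).factorial * (X : ℝ) ^ 2 * R /
      (Real.log y) ^ (Fintype.card J) := by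
    rw [le_div_iff₀ hlog0, ← hRm]
    have h1 : (1 : ℝ) ≤ (X : ℝ) * (Gm / m) := by
      rw [← mul_div_assoc, le_div_iff₀ hm0]
      nlinarith
    have h2 : (0 : ℝ) ≤ 2 * (Fintype.card J).factorial * (X : ℝ) := by positivity
    calc 2 * (Real.log y) ^ (Fintype.card J) ≤ 2 * ((Fintype.card J).factorial * X) := by linarith
      _ = 2 * (Fintype.card J).factorial * (X : ℝ) * 1 := by ring
      _ ≤ 2 * (Fintype.card J).factorial * (X : ℝ) * ((X : ℝ) * (Gm / m)) :=
          mul_le_mul_of_nonneg_left h1 h2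
      _ = 2 * (Fintype.card J).factorial * (X : ℝ) ^ 2 * (Gm / m) := by ring
  have hmain : C * (X / m) * (Gm * (CA * X)) / (Real.log y) ^ (Fintype.card J) =
      C * CA * (X : ℝ) ^ 2 * R / (Real.log y) ^ (Fintype.card J) := by
    rw [← hRm]
    ring
  have hz2 : ((T.filter (fun t : ℕ × ℕ => N2 + (t.2 : ℤ) = 0)).card : ℝ) ≤ 2 := by
    exact_mod_cast hzero
  calc (T.card : ℝ) = ((T.filter (fun t : ℕ × ℕ => N2 + (t.2 : ℤ) = 0)).card : ℝ) +
      ((T.filter (fun t : ℕ × ℕ => ¬ N2 + (t.2 : ℤ) = 0)).card : ℝ) := by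
        exact_mod_cast hsplit
    _ ≤ 2 * (Fintype.card J).factorial * (X : ℝ) ^ 2 * R / (Real.log y) ^ (Fintype.card J) +
        C * CA * (X : ℝ) ^ 2 * R / (Real.log y) ^ (Fintype.card J) := by
        have := hcard.trans (hsum.trans_eq hmain)
        linarith
    _ = (C * CA + 2 * (Fintype.card J).factorial) * X ^ 2 *
        (∏ j, gw 1 (Fintype.card J) (s j)) *
        (∏ j, gw 1 (Fintype.card J) (v j) / v j) * (∏ j, 1 / (u j : ℝ)) /
        (Real.log y) ^ (Fintype.card J) := by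
        rw [hR]
        ring

end Pool.Agent.W839.RS
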